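import Pool.Agent.Q68.SP.Orb

/-!
Project SP (helper41), part Y14, by helper68: orbits of inseparable maps in a frame of maximal height.
-/

set_option autoImplicit false

namespace Pool.Agent.Q68.SP

open Finset Polynomial
open Pool.Agent.Q41.SU Pool.Agent.Q41.SP
open Pool.Agent.W277.UH (ConjConst)

universe u

theorem infsP (hdich : S_dichP.{u}) (hov : S_ovP.{u}) (hjump : S_jumpP.{u})
    (hins : S_insP.{u}) (hselT : S_selTP.{u}) (hcapP : S_capP.{u}) : S_infsP.{u} := by
  classical
  intro l d ν hl hd hν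
  obtain ⟨b, hb, hcap⟩ := hcapP l d ν hl hd hν
  obtain ⟨J, r, hJ, hcap⟩ := hcap (b ^ ν)
  have hsel := fun (e : ℕ) => hselT l ν b (J * l ^ r * b) r (e + 1) hl hν hb (by omega)
  choose N' hN' using hsel
  have hcap' := fun (e : ℕ) => hcap (l ^ ((e + 1) * N' e)) (Nat.one_le_pow _ _ hl.pos)
  choose NB j₁ hNB using hcap'
  obtain ⟨N₂, hN₂⟩ := hdich l d ν 1 hl hd hν
  set nW : ℕ → ℕ := fun e => N' e + j₁ e + NB e + 1 with hnW
  set nM : ℕ := (range (d + 1)).sup nW with hnM
  refine ⟨(2 * d + 1) * (nM + 1) + N₂, ?_⟩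
  intro k E _ _ _ _ _ _ _ t G _ hG hcard h p q p₀ q₀ hp₀ hq₀ hp hq co hnc hh hwr x n hst hinj hcyc
  have c : Ctx l h d n p q p₀ q₀ x := ⟨hp₀, hq₀, hp, hq, co, hst, hinj, hcyc⟩
  obtain ⟨m, hmn, hlt, hnm⟩ := top_part hov hd N₂ (hN₂ k E t G hG hcard) hG c hnc hh
  by_contra hcon
  push Not at hcon
  have hm : (2 * d + 1) * (nM + 1) ≤ m := by omega
  obtain ⟨s, p₁, q₁, hsd, hpe, hqe, hw1⟩ := (hins l E d p q (by omega) c.rm).1
  obtain ⟨e, rfl⟩ : ∃ e, s = e + 1 := by
    rcases Nat.eq_zero_or_pos s with h0 | h0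
    · exfalso
      subst h0
      rw [pow_zero, expand_one] at hpe hqe
      rw [← hpe, ← hqe] at hw1
      exact hw1 hwr
    · exact ⟨s - 1, by omega⟩
  have hed : e ≤ d := by
    have := Nat.lt_pow_self hl.one_lt (n := e + 1)
    omega
  have hnWe : nW e ≤ nM := Finset.le_sup (f := nW) (mem_range.2 (by omega))
  have hlpos : 1 ≤ l ^ (e + 1) := Nat.one_le_pow _ _ hl.pos
  have hp1 : p₁.natDegree ≤ d := by
    have h1 : p.natDegree = p₁.natDegree * l ^ (e + 1) := by rw [hpe, natDegree_expand]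
    have h2 : p₁.natDegree ≤ p₁.natDegree * l ^ (e + 1) := Nat.le_mul_of_pos_right _ hlpos
    omega
  have hq1 : q₁.natDegree ≤ d := by
    have h1 : q.natDegree = q₁.natDegree * l ^ (e + 1) := by rw [hqe, natDegree_expand]
    have h2 : q₁.natDegree ≤ q₁.natDegree * l ^ (e + 1) := Nat.le_mul_of_pos_right _ hlpos
    omega
  obtain ⟨a, ha, hblock⟩ := exists_block
    ((range n).filter (fun i => (wr p₁ q₁).eval (x i ^ l ^ (e + 1)) = 0)) (2 * d) (nM + 1) m
    ((card_zero c (wr p₁ q₁) hw1 (e + 1)).trans (wr_deg p₁ q₁ hp1 hq1)) hm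
  -- the levels along the block
  have hstep : ∀ i, i + 1 < nM + 1 →
      lvl l h x (a + i + 1) = lvl l h x (a + i) + (e + 1) := by
    intro i hi
    have hj : lvl l h x (a + i) < h := hlt _ (by omega)
    have hj' : lvl l h x (a + i + 1) < h := hlt _ (by omega)
    apply le_antisymm
    · by_contra hne
      push Not at hne
      have h3 : lvl l h x (a + i) + (e + 1) + 1 ≤ lvl l h x (a + i + 1) := hne
      obtain ⟨v, hv⟩ := of_le_lvl (l := l) h3
      have h4 : ¬ ∃ w, x (a + i) = w ^ l ^ (lvl l h x (a + i) + 1) := by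
        intro hw
        have := le_lvl (l := l) (h := h) hj hw
        omega
      have h5 := (hjump l h (e + 1) (lvl l h x (a + i)) E p₀ q₀ p₁ q₁ (by rw [← hp₀, hpe])
        (by rw [← hq₀, hqe]) (x (a + i)) (by rw [← hq₀]; exact (hst _).1)
        (lvl_spec (l := l) h (a + i) x)).2 (by omega) ⟨v, by
            rw [← hp₀, ← hq₀, ← (hst _).2]
            exact hv⟩ h4
      refine hblock (a + i) (by omega) (by omega) ?_
      rw [mem_filter, mem_range]
      exact ⟨by omega, h5⟩
    · rcases Nat.lt_or_ge h (lvl l h x (a + i) + (e + 1)) with h1 | h1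
      · exfalso
        have e1 : l ^ (e + 1) = l ^ (h - lvl l h x (a + i)) *
            l ^ (e + 1 - (h - lvl l h x (a + i))) := by
          rw [← pow_add]
          congr 1
          omega
        obtain ⟨v, hv⟩ := (hjump l h (h - lvl l h x (a + i)) (lvl l h x (a + i)) E p₀ q₀
          (expand E (l ^ (e + 1 - (h - lvl l h x (a + i)))) p₁)
          (expand E (l ^ (e + 1 - (h - lvl l h x (a + i)))) q₁)
          (by rw [← hp₀, hpe, e1, expand_mul]) (by rw [← hq₀, hqe, e1, expand_mul])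
          (x (a + i)) (by rw [← hq₀]; exact (hst _).1)
          (lvl_spec (l := l) h (a + i) x)).1 (by omega)
        rw [← hp₀, ← hq₀, ← (hst _).2] at hv
        have h2 : lvl l h x (a + i) + (h - lvl l h x (a + i)) = h := by omega
        rw [h2] at hv
        have := le_lvl (l := l) (h := h) le_rfl ⟨v, hv⟩
        omega
      · obtain ⟨v, hv⟩ := (hjump l h (e + 1) (lvl l h x (a + i)) E p₀ q₀ p₁ q₁
          (by rw [← hp₀, hpe]) (by rw [← hq₀, hqe]) (x (a + i)) (by rw [← hq₀]; exact (hst _).1)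
          (lvl_spec (l := l) h (a + i) x)).1 h1
        rw [← hp₀, ← hq₀, ← (hst _).2] at hv
        exact le_lvl h1 ⟨v, hv⟩
  have hlev : ∀ i, i < nM + 1 → lvl l h x (a + i) = lvl l h x a + (e + 1) * i := by
    intro i
    induction i with
    | zero => intro _; simp
    | succ i ih =>
      intro hi
      rw [← add_assoc, hstep i hi, ih (by omega)]
      ring
  set j := lvl l h x a with hjdef
  have hj : j < h := hlt a (by omega)
  obtain ⟨z, hz⟩ : ∃ z : ℕ → E, ∀ i < nM + 1, x (a + i) = z i ^ l ^ j := by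
    have : ∀ i, ∃ w, i < nM + 1 → x (a + i) = w ^ l ^ j := by
      intro i
      by_cases hi : i < nM + 1
      · obtain ⟨w, hw⟩ := of_le_lvl (l := l) (h := h) (x := x) (i := a + i) (j := j)
          (by rw [hlev i hi]; omega)
        exact ⟨w, fun _ => hw⟩
      · exact ⟨0, fun h => absurd h hi⟩
    choose z hz' using this
    exact ⟨z, hz'⟩
  have hzlev : ∀ i < nM + 1, ∃ w, (¬ ∃ y, w = y ^ l) ∧ z i = w ^ l ^ ((e + 1) * i) := by
    intro i hi
    obtain ⟨w, hw⟩ := lvl_spec (l := l) h (a + i) x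
    refine ⟨w, ?_, ?_⟩
    · rintro ⟨y, rfl⟩
      have h1 : lvl l h x (a + i) + 1 ≤ lvl l h x (a + i) := by
        apply le_lvl (hlt _ (by omega))
        refine ⟨y, ?_⟩
        rw [← pow_mul, ← pow_succ'] at hw
        exact hw
      omega
    · apply pow_inj (l := l) j
      show z i ^ l ^ j = (w ^ l ^ ((e + 1) * i)) ^ l ^ j
      rw [← hz i hi, ← pow_mul, ← pow_add, hw, hlev i hi]
      congr 2
      omega
  have eP : (p₀.map (iterateFrobenius E l (h - j))).map (iterateFrobenius E l j) = p := by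
    rw [map_map_fr, c.hp₀, Nat.sub_add_cancel hj.le]
  have eQ : (q₀.map (iterateFrobenius E l (h - j))).map (iterateFrobenius E l j) = q := by
    rw [map_map_fr, c.hq₀, Nat.sub_add_cancel hj.le]
  obtain ⟨hdP, hdQ, hco⟩ := rm_root eP eQ c.hp c.hq c.co
  obtain ⟨hseg, hmem⟩ := seg_root c eP eQ a (nM + 1) (by omega) z hz
  have hst' : Stab (p₀.map (iterateFrobenius E l (h - j))) (q₀.map (iterateFrobenius E l (h - j)))
      (rootS l j (orbS n x)) := by
    apply stab_root
    rw [eP, eQ]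
    exact c.stab
  refine hNB e k E t G hG hcard _ _ hdP hdQ hco _ hst' (not_cc hov (by omega) c.rm eP eQ hnc)
    (Or.inr ?_) ?_
  · refine ⟨(Ico (j₁ e) (nW e)).image z, ?_, ?_, ?_⟩
    · intro y hy
      rw [mem_image] at hy
      obtain ⟨i, hi, rfl⟩ := hy
      rw [mem_Ico] at hi
      exact hmem i (by omega)
    · rw [card_image_of_injOn, Nat.card_Ico]
      · simp only [hnW]
        omega
      · intro i hi i' hi' he
        rw [mem_coe, mem_Ico] at hi hi'
        exact hseg.inj i (by omega) i' (by omega) he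
    · intro y hy
      rw [mem_image] at hy
      obtain ⟨i, hi, rfl⟩ := hy
      rw [mem_Ico] at hi
      obtain ⟨w, -, hw⟩ := hzlev i (by omega)
      refine ⟨w ^ l ^ ((e + 1) * i - j₁ e), ?_⟩
      rw [hw, ← pow_mul, ← pow_add]
      congr 2
      have : i ≤ (e + 1) * i := Nat.le_mul_of_pos_left i (by omega)
      omega
  · intro t' τ D hHT hG' hτ hcomm
    have hN'e : N' e < nM + 1 := by
      have : N' e ≤ nW e := by simp only [hnW]; omega
      omega
    obtain ⟨y, hy1, hy2, hy3⟩ := hN' e k E τ D hHT G hcard.le hcomm z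
      (fun i hi i' hi' he => hseg.inj i (by omega) i' (by omega) he) (by
        intro i hi
        obtain ⟨w, hw1, hw2⟩ := hzlev i (by omega)
        exact ⟨w, fun h0 => hw1 (hHT.ker w h0), hw2⟩)
    refine ⟨y, hy1, ?_, ?_⟩
    · intro i
      obtain ⟨i', hi', he⟩ := hy2 i
      rw [he]
      exact hmem i' (by omega)
    · intro g hg
      have h1 := hy3 g hg
      have h2 : b ^ ν * ((J * l ^ r * b + 1) * (b + 1)) * l ^ ((e + 1) * N' e) + 1 =
          b ^ ν * l ^ ((e + 1) * N' e) * ((J * l ^ r * b + 1) * (b + 1)) + 1 := by ring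
      rw [h2]
      exact h1

end Pool.Agent.Q68.SP
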