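import Pool.Agent.Q68.SP.Orb

/-!
Project SP (helper41), part Y13, by helper68: orbits of separable maps in a frame of maximal height.
-/

set_option autoImplicit false

namespace Pool.Agent.Q68.SP

open Finset Polynomial
open Pool.Agent.Q41.SU Pool.Agent.Q41.SP
open Pool.Agent.W277.UH (ConjConst)

universe u

theorem sepP (hhs : S_hsP.{u}) (hdich : S_dichP.{u}) (hov : S_ovP.{u}) (hjump : S_jumpP.{u})
    (htsl : S_tslP.{u}) : S_sepP.{u} := by
  classical
  intro l d ν hl hd hν
  obtain ⟨cc, hcc⟩ := htsl l d hl hd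
  obtain ⟨N₁, hN₁⟩ := hdich l d ν (cc + 1) hl hd hν
  obtain ⟨N₂, hN₂⟩ := hdich l d ν 1 hl hd hν
  refine ⟨(2 * d + 1) * (N₁ + 1) + N₂, ?_⟩
  intro k E _ _ _ _ _ _ _ t G _ hG hcard h p q p₀ q₀ hp₀ hq₀ hp hq co hnc hh hwr x n hst hinj hcyc
  have c : Ctx l h d n p q p₀ q₀ x := ⟨hp₀, hq₀, hp, hq, co, hst, hinj, hcyc⟩
  obtain ⟨m, hmn, hlt, hnm⟩ := top_part hov hd N₂ (hN₂ k E t G hG hcard) hG c hnc hh
  by_contra hcon
  push Not at hcon
  have hm : (2 * d + 1) * (N₁ + 1) ≤ m := by omega
  obtain ⟨a, ha, hblock⟩ := exists_block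
    ((range n).filter (fun i => (wr p q).eval (x i ^ l ^ 0) = 0)) (2 * d) (N₁ + 1) m
    ((card_zero c (wr p q) hwr 0).trans (wr_deg p q hp hq.le)) hm
  have hj : lvl l h x a < h := hlt a (by omega)
  have hconst : ∀ i < N₁ + 1, lvl l h x (a + i) = lvl l h x a := by
    intro i
    induction i with
    | zero => intro _; rfl
    | succ i ih =>
      intro hi
      have h1 := ih (by omega)
      have h2 := lvl_mono c (a + i)
      by_contra hne
      have h3 : lvl l h x a + 1 ≤ lvl l h x (a + i + 1) := by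
        rw [add_assoc]
        rw [add_assoc] at h2
        omega
      obtain ⟨v, hv⟩ := of_le_lvl (l := l) h3
      have h4 : ¬ ∃ w, x (a + i) = w ^ l ^ (lvl l h x a + 1) := by
        intro hw
        have := le_lvl (l := l) (h := h) hj hw
        omega
      have h5 := (hjump l h 0 (lvl l h x a) E p₀ q₀ p q (by simp [← hp₀]) (by simp [← hq₀])
        (x (a + i)) (by rw [← hq₀]; exact (hst _).1) (by
          obtain ⟨w, hw⟩ := lvl_spec (l := l) h (a + i) x
          rw [h1] at hw
          exact ⟨w, hw⟩)).2 (by omega) ⟨v, by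
            rw [← hp₀, ← hq₀, ← (hst _).2]
            exact hv⟩ h4
      refine hblock (a + i) (by omega) (by omega) ?_
      rw [mem_filter, mem_range]
      exact ⟨by omega, h5⟩
  obtain ⟨hK, μ, p₂, q₂, z, hov', hsub, i, hi, hxi⟩ := dich_use hov hd (cc + 1) N₁
    (hN₁ k E t G hG hcard) hG c hnc hh hj.le a (N₁ + 1) (by omega) (by omega)
    (fun i hi => (hconst i hi).ge)
  obtain ⟨τ, D, hHT, -⟩ := hhs l k E t G hG
  have eP : (p₀.map (iterateFrobenius E l (h - lvl l h x a - (cc + 1)))).map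
      (iterateFrobenius E l (cc + 1)) = p₀.map (iterateFrobenius E l (h - lvl l h x a)) := by
    rw [map_map_fr]
    congr 2
    omega
  have eQ : (q₀.map (iterateFrobenius E l (h - lvl l h x a - (cc + 1)))).map
      (iterateFrobenius E l (cc + 1)) = q₀.map (iterateFrobenius E l (h - lvl l h x a)) := by
    rw [map_map_fr]
    congr 2
    omega
  rw [← eP, ← eQ] at hov'
  have hrm : RM d ((p₀.map (iterateFrobenius E l (h - lvl l h x a - (cc + 1)))).map
      (iterateFrobenius E l (cc + 1))) ((q₀.map (iterateFrobenius E l (h - lvl l h x a - (cc + 1)))).map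
      (iterateFrobenius E l (cc + 1))) := by
    rw [eP, eQ]
    obtain ⟨h1, h2, h3⟩ := rm_root (j := lvl l h x a)
      (P' := p₀.map (iterateFrobenius E l (h - lvl l h x a)))
      (Q' := q₀.map (iterateFrobenius E l (h - lvl l h x a)))
      (by rw [map_map_fr, hp₀, Nat.sub_add_cancel hj.le])
      (by rw [map_map_fr, hq₀, Nat.sub_add_cancel hj.le]) hp hq co
    exact ⟨h3, by rw [h2]; exact max_eq_right h1⟩
  obtain ⟨w, hw⟩ := hcc k E τ D hHT (cc + 1) _ _ p₂ q₂ μ hrm hov' z hsub
  have hfin : lvl l h x a + 1 ≤ lvl l h x (a + i) := by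
    apply le_lvl hj
    refine ⟨w, ?_⟩
    rw [hxi, hw, ← pow_mul, ← pow_add]
    congr 2
    omega
  rw [hconst i hi] at hfin
  omega

end Pool.Agent.Q68.SP
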