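import Pool.Agent.Q41.SP.Stm6

/-!
Project SP (helper41), parts Y13, Y14, by helper68: orbits and their levels in a frame of maximal height,
common lemmas.
-/

set_option autoImplicit false

namespace Pool.Agent.Q68.SP

open Finset Polynomial
open Pool.Agent.Q41.SU Pool.Agent.Q41.SP
open Pool.Agent.W277.UH (ConjConst)

universe u

lemma exists_block (J : Finset ℕ) (D L m : ℕ) (hJ : J.card ≤ D) (hm : (D + 1) * L ≤ m) :
    ∃ a, a + L ≤ m ∧ ∀ i, a ≤ i → i < a + L → i ∉ J := by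
  by_contra hcon
  push Not at hcon
  have h1 : ∀ b ∈ range (D + 1), ∃ i ∈ J, b * L ≤ i ∧ i < b * L + L := by
    intro b hb
    rw [mem_range] at hb
    obtain ⟨i, h2, h3, h4⟩ := hcon (b * L) (by
      have : (b + 1) * L ≤ (D + 1) * L := Nat.mul_le_mul_right L hb
      nlinarith)
    exact ⟨i, h4, h2, h3⟩
  choose! f hf using h1
  have h2 : (range (D + 1)).card ≤ J.card := by
    refine card_le_card_of_injOn f (fun b hb => (hf b hb).1) ?_
    have key : ∀ b ∈ range (D + 1), ∀ b' ∈ range (D + 1), f b = f b' → b' ≤ b := by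
      intro b hb b' hb' hbb
      by_contra hlt
      push Not at hlt
      have e1 := (hf b hb).2.2
      have e2 := (hf b' hb').2.1
      have e3 : (b + 1) * L ≤ b' * L := Nat.mul_le_mul_right L hlt
      have e4 : (b + 1) * L = b * L + L := by ring
      omega
    intro b hb b' hb' hbb
    exact le_antisymm (key b' hb' b hb hbb.symm) (key b hb b' hb' hbb)
  rw [card_range] at h2
  omega

section
variable {l : ℕ} {E : Type u} [Field E] [Fact l.Prime] [CharP E l]

lemma pow_inj (j : ℕ) : Function.Injective (fun z : E => z ^ l ^ j) :=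
  iterateFrobenius_inj E l j

lemma map_map_fr (g : E[X]) (i j : ℕ) :
    (g.map (iterateFrobenius E l i)).map (iterateFrobenius E l j) =
      g.map (iterateFrobenius E l (i + j)) := by
  rw [Polynomial.map_map]
  congr 1
  ext z
  simp only [RingHom.comp_apply, iterateFrobenius_def]
  rw [← pow_mul, pow_add]

lemma eval_fr (g : E[X]) (j : ℕ) (z : E) :
    (g.map (iterateFrobenius E l j)).eval (z ^ l ^ j) = (g.eval z) ^ l ^ j := by
  rw [eval_map, ← iterateFrobenius_def (R := E) l j z, eval₂_at_apply]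
  rfl

/-- The orbit context. -/
structure Ctx (l h d n : ℕ) {E : Type u} [Field E] [Fact l.Prime] [CharP E l]
    (p q p₀ q₀ : E[X]) (x : ℕ → E) : Prop where
  hp₀ : p = p₀.map (iterateFrobenius E l h)
  hq₀ : q = q₀.map (iterateFrobenius E l h)
  hp : p.natDegree ≤ d
  hq : q.natDegree = d
  co : IsCoprime p q
  st : ∀ i, q.eval (x i) ≠ 0 ∧ x (i + 1) = p.eval (x i) / q.eval (x i)
  inj : ∀ i < n, ∀ j < n, x i = x j → i = j
  cyc : ∃ i < n, x n = x i

variable {h d n : ℕ} {p q p₀ q₀ : E[X]} {x : ℕ → E}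

lemma Ctx.rm (c : Ctx l h d n p q p₀ q₀ x) : RM d p q :=
  ⟨c.co, by rw [c.hq]; exact max_eq_right c.hp⟩

/-- The orbit as a finite set. -/
noncomputable def orbS (n : ℕ) (x : ℕ → E) : Finset E := by
  classical
  exact (range n).image x

lemma mem_orbS (n : ℕ) (x : ℕ → E) (z : E) : z ∈ orbS n x ↔ ∃ i < n, x i = z := by
  classical
  unfold orbS
  simp

lemma Ctx.stab (c : Ctx l h d n p q p₀ q₀ x) : Stab p q (orbS n x) := by
  intro z hz
  rw [mem_orbS] at hz
  obtain ⟨i, hi, rfl⟩ := hz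
  refine ⟨(c.st i).1, ?_⟩
  rw [← (c.st i).2, mem_orbS]
  rcases Nat.lt_or_ge (i + 1) n with h1 | h1
  · exact ⟨i + 1, h1, rfl⟩
  · have : i + 1 = n := by omega
    rw [this]
    obtain ⟨i', hi', he⟩ := c.cyc
    exact ⟨i', hi', he.symm⟩

/-- The roots of exponent `l ^ j` of the elements of a finite set. -/
noncomputable def rootS (l j : ℕ) {E : Type u} [Field E] [Fact l.Prime] [CharP E l]
    (P : Finset E) : Finset E :=
  P.preimage (fun z : E => z ^ l ^ j) ((pow_inj j).injOn)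

lemma mem_rootS (j : ℕ) (P : Finset E) (z : E) : z ∈ rootS l j P ↔ z ^ l ^ j ∈ P := by
  unfold rootS
  rw [Finset.mem_preimage]

lemma stab_root (j : ℕ) (P : Finset E) (P' Q' : E[X])
    (hS : Stab (P'.map (iterateFrobenius E l j)) (Q'.map (iterateFrobenius E l j)) P) :
    Stab P' Q' (rootS l j P) := by
  intro z hz
  rw [mem_rootS] at hz
  obtain ⟨h1, h2⟩ := hS _ hz
  rw [eval_fr] at h1 h2
  rw [eval_fr] at h2
  refine ⟨fun h0 => h1 (by rw [h0, zero_pow (pow_ne_zero _ (Fact.out (p := l.Prime)).ne_zero)]), ?_⟩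
  rw [mem_rootS, div_pow]
  exact h2

lemma rm_root {j : ℕ} {P' Q' : E[X]} (hP : P'.map (iterateFrobenius E l j) = p)
    (hQ : Q'.map (iterateFrobenius E l j) = q) (hp : p.natDegree ≤ d) (hq : q.natDegree = d)
    (co : IsCoprime p q) : P'.natDegree ≤ d ∧ Q'.natDegree = d ∧ IsCoprime P' Q' := by
  subst hP
  subst hQ
  rw [natDegree_map_eq_of_injective (iterateFrobenius E l j).injective] at hp hq
  rw [isCoprime_map] at co
  exact ⟨hp, hq, co⟩

lemma seg_root (c : Ctx l h d n p q p₀ q₀ x) {j : ℕ} {P' Q' : E[X]}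
    (hP : P'.map (iterateFrobenius E l j) = p)
    (hQ : Q'.map (iterateFrobenius E l j) = q) (i₀ m : ℕ) (hm : i₀ + m ≤ n) (z : ℕ → E)
    (hz : ∀ i < m, x (i₀ + i) = z i ^ l ^ j) :
    Seg P' Q' m z ∧ ∀ i < m, z i ∈ rootS l j (orbS n x) := by
  refine ⟨⟨?_, ?_⟩, ?_⟩
  · intro i hi i' hi' he
    have h1 : x (i₀ + i) = x (i₀ + i') := by rw [hz i hi, hz i' hi', he]
    have := c.inj _ (by omega) _ (by omega) h1
    omega
  · intro i hi
    have h1 := (c.st (i₀ + i)).1
    have h2 := (c.st (i₀ + i)).2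
    rw [hz i (by omega), ← hQ, eval_fr] at h1
    rw [hz i (by omega), ← hQ, ← hP, eval_fr, eval_fr, add_assoc, hz (i + 1) hi, ← div_pow] at h2
    exact ⟨fun h0 => h1 (by rw [h0, zero_pow (pow_ne_zero _ (Fact.out (p := l.Prime)).ne_zero)]),
      pow_inj (l := l) j h2⟩
  · intro i hi
    rw [mem_rootS, mem_orbS]
    exact ⟨i₀ + i, by omega, hz i hi⟩

open Classical in
/-- The level of the `i`-th element of the orbit. -/
noncomputable def lvl (l h : ℕ) {E : Type u} [Field E] (x : ℕ → E) (i : ℕ) : ℕ :=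
  Nat.findGreatest (fun j => ∃ w, x i = w ^ l ^ j) h

lemma lvl_le (h i : ℕ) (x : ℕ → E) : lvl l h x i ≤ h := by
  classical
  unfold lvl
  exact Nat.findGreatest_le h

lemma lvl_spec (h i : ℕ) (x : ℕ → E) : ∃ w, x i = w ^ l ^ (lvl l h x i) := by
  classical
  exact Nat.findGreatest_spec (P := fun j => ∃ w, x i = w ^ l ^ j) (m := 0) (n := h) (Nat.zero_le h)
    ⟨x i, by simp⟩

lemma le_lvl {h i j : ℕ} {x : ℕ → E} (hj : j ≤ h) (hw : ∃ w, x i = w ^ l ^ j) :
    j ≤ lvl l h x i := by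
  classical
  exact Nat.le_findGreatest hj hw

lemma of_le_lvl {h i j : ℕ} {x : ℕ → E} (hj : j ≤ lvl l h x i) : ∃ w, x i = w ^ l ^ j := by
  obtain ⟨w, hw⟩ := lvl_spec (l := l) h i x
  refine ⟨w ^ l ^ (lvl l h x i - j), ?_⟩
  rw [hw, ← pow_mul, ← pow_add]
  congr 2
  omega

lemma lvl_mono (c : Ctx l h d n p q p₀ q₀ x) (i : ℕ) : lvl l h x i ≤ lvl l h x (i + 1) := by
  have h1 := lvl_le (l := l) h i x
  apply le_lvl h1
  obtain ⟨w, hw⟩ := lvl_spec (l := l) h i x
  set j := lvl l h x i with hj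
  have eP : (p₀.map (iterateFrobenius E l (h - j))).map (iterateFrobenius E l j) = p := by
    rw [map_map_fr, c.hp₀, Nat.sub_add_cancel h1]
  have eQ : (q₀.map (iterateFrobenius E l (h - j))).map (iterateFrobenius E l j) = q := by
    rw [map_map_fr, c.hq₀, Nat.sub_add_cancel h1]
  refine ⟨(p₀.map (iterateFrobenius E l (h - j))).eval w /
    (q₀.map (iterateFrobenius E l (h - j))).eval w, ?_⟩
  rw [(c.st i).2, hw, ← eP, ← eQ, eval_fr, eval_fr, div_pow]

lemma lvl_mono' (c : Ctx l h d n p q p₀ q₀ x) {i i' : ℕ} (hi : i ≤ i') :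
    lvl l h x i ≤ lvl l h x i' := by
  induction i', hi using Nat.le_induction with
  | base => exact le_rfl
  | succ m _ ih => exact ih.trans (lvl_mono c m)

end

section
variable {l : ℕ} {k E : Type u} [Field k] [Field E] [Algebra k E] [Fact l.Prime]
  [CharP k l] [CharP E l] {h d n : ℕ} {p q p₀ q₀ : E[X]} {x : ℕ → E}

lemma hcm_id (d : ℕ) (g : E[X]) (hg : g.natDegree ≤ d) :
    hcm d g (C 1 * X + C 0) (C 0 * X + C 1) = g := by
  unfold hcm
  simp only [map_one, one_mul, map_zero, zero_mul, add_zero, zero_add, one_pow, mul_one]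
  conv_rhs => rw [g.as_sum_range_C_mul_X_pow' (Nat.lt_succ_of_le hg)]

lemma ov_id {j : ℕ} {P' Q' : E[X]} (hrm : RM d p q) (hP : P'.map (iterateFrobenius E l j) = p)
    (hQ : Q'.map (iterateFrobenius E l j) = q) : Ov l j d ⟨1, 0, 0, 1⟩ p q P' Q' := by
  have hdp : p.natDegree ≤ d := by rw [← hrm.deg]; exact le_max_left _ _
  have hdq : q.natDegree ≤ d := by rw [← hrm.deg]; exact le_max_right _ _
  unfold Ov
  rw [hP, hQ]
  refine ⟨?_, hrm, ?_⟩
  · simp [Mb.det]
  · show hcm d p (C 1 * X + C 0) (C 0 * X + C 1) * (C 0 * p + C 1 * q) =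
      hcm d q (C 1 * X + C 0) (C 0 * X + C 1) * (C 1 * p + C 0 * q)
    rw [hcm_id d p hdp, hcm_id d q hdq]
    simp only [map_one, one_mul, map_zero, zero_mul, add_zero, zero_add]
    ring

lemma not_cc (hov : S_ovP.{u}) (hd : 1 ≤ d) {j : ℕ} {P' Q' : E[X]} (hrm : RM d p q)
    (hP : P'.map (iterateFrobenius E l j) = p) (hQ : Q'.map (iterateFrobenius E l j) = q)
    (hcc : ¬ ConjConst k p q d) : ¬ ConjConst k P' Q' d := fun hc =>
  hcc ((hov l 0 j d k E p q P' Q' hd hrm).2.2 ⟨1, 0, 0, 1⟩ (ov_id hrm hP hQ) hc)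

lemma hgt_up (hov : S_ovP.{u}) (hd : 1 ≤ d) {j K : ℕ} {P' Q' p₂ q₂ : E[X]} {μ : Mb E}
    (hrm : RM d p q) (hP : P'.map (iterateFrobenius E l j) = p)
    (hQ : Q'.map (iterateFrobenius E l j) = q) (hμ : Ov l K d μ P' Q' p₂ q₂)
    (k' : Type u) [Field k'] [Algebra k' E] [CharP k' l] :
    Hgt l (K + j) d p q := by
  obtain ⟨μ', h1⟩ := (hov l K j d k' E p q P' Q' hd hrm).1 μ p₂ q₂ hμ
  rw [hP, hQ] at h1
  exact ⟨μ', p₂, q₂, h1⟩

/-- The use of the dichotomy: a long segment of the orbit of level at least `j`. -/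
lemma dich_use [IsAlgClosed k] (hov : S_ovP.{u}) (hd : 2 ≤ d) {t : E}
    {G : Subgroup (E ≃ₐ[k] E)} [Fintype G]
    (K N : ℕ)
    (hN : ∀ p q : E[X], p.natDegree ≤ d → q.natDegree = d → IsCoprime p q →
      ∀ P : Finset E, Stab p q P → ¬ ConjConst k p q d → ∀ (n : ℕ) (x : ℕ → E), Seg p q n x →
      (∀ i < n, x i ∈ P) → N ≤ n →
      ∃ (μ : Mb E) (p₀ q₀ : E[X]), Ov l K d μ p q p₀ q₀ ∧ ∃ i < n, Sub l K μ (x i))
    (_hG : IsGal k t G)
    (c : Ctx l h d n p q p₀ q₀ x) (hcc : ¬ ConjConst k p q d)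
    (hh : ∀ h', Hgt l h' d p q → h' ≤ h) {j : ℕ} (hj : j ≤ h) (i₀ m : ℕ) (hm : i₀ + m ≤ n)
    (hNm : N ≤ m) (hz : ∀ i < m, j ≤ lvl l h x (i₀ + i)) :
    K + j ≤ h ∧ ∃ (μ : Mb E) (p₂ q₂ : E[X]) (z : E),
      Ov l K d μ (p₀.map (iterateFrobenius E l (h - j))) (q₀.map (iterateFrobenius E l (h - j)))
        p₂ q₂ ∧ Sub l K μ z ∧ ∃ i < m, x (i₀ + i) = z ^ l ^ j := by
  have eP : (p₀.map (iterateFrobenius E l (h - j))).map (iterateFrobenius E l j) = p := by
    rw [map_map_fr, c.hp₀, Nat.sub_add_cancel hj]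
  have eQ : (q₀.map (iterateFrobenius E l (h - j))).map (iterateFrobenius E l j) = q := by
    rw [map_map_fr, c.hq₀, Nat.sub_add_cancel hj]
  obtain ⟨z, hz'⟩ : ∃ z : ℕ → E, ∀ i < m, x (i₀ + i) = z i ^ l ^ j := by
    have : ∀ i, ∃ w, i < m → x (i₀ + i) = w ^ l ^ j := by
      intro i
      by_cases hi : i < m
      · obtain ⟨w, hw⟩ := of_le_lvl (l := l) (hz i hi)
        exact ⟨w, fun _ => hw⟩
      · exact ⟨0, fun h => absurd h hi⟩
    choose z hz' using this
    exact ⟨z, hz'⟩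
  obtain ⟨hdP, hdQ, hco⟩ := rm_root eP eQ c.hp c.hq c.co
  obtain ⟨hseg, hmem⟩ := seg_root c eP eQ i₀ m hm z hz'
  have hst : Stab (p₀.map (iterateFrobenius E l (h - j))) (q₀.map (iterateFrobenius E l (h - j)))
      (rootS l j (orbS n x)) := by
    apply stab_root
    rw [eP, eQ]
    exact c.stab
  obtain ⟨μ, p₂, q₂, hov', i, hi, hsub⟩ := hN _ _ hdP hdQ hco _ hst
    (not_cc hov (by omega) c.rm eP eQ hcc) m z hseg hmem hNm
  exact ⟨hh _ (hgt_up hov (by omega) c.rm eP eQ hov' k), μ, p₂, q₂, z i, hov', hsub, i, hi,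
    hz' i hi⟩

/-- The orbit is, up to a bounded number of elements, below the level `h`. -/
lemma top_part [IsAlgClosed k] (hov : S_ovP.{u}) (hd : 2 ≤ d) {t : E}
    {G : Subgroup (E ≃ₐ[k] E)} [Fintype G]
    (N : ℕ)
    (hN : ∀ p q : E[X], p.natDegree ≤ d → q.natDegree = d → IsCoprime p q →
      ∀ P : Finset E, Stab p q P → ¬ ConjConst k p q d → ∀ (n : ℕ) (x : ℕ → E), Seg p q n x →
      (∀ i < n, x i ∈ P) → N ≤ n →
      ∃ (μ : Mb E) (p₀ q₀ : E[X]), Ov l 1 d μ p q p₀ q₀ ∧ ∃ i < n, Sub l 1 μ (x i))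
    (hG : IsGal k t G)
    (c : Ctx l h d n p q p₀ q₀ x) (hcc : ¬ ConjConst k p q d)
    (hh : ∀ h', Hgt l h' d p q → h' ≤ h) :
    ∃ m ≤ n, (∀ i < m, lvl l h x i < h) ∧ n ≤ m + N := by
  classical
  by_cases hex : ∃ i, i < n ∧ lvl l h x i = h
  · refine ⟨Nat.find hex, (Nat.find_spec hex).1.le, ?_, ?_⟩
    · intro i hi
      have h1 := Nat.find_min hex hi
      have h2 := lvl_le (l := l) h i x
      have h3 := (Nat.find_spec hex).1
      push Not at h1
      exact lt_of_le_of_ne h2 (h1 (by omega))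
    · by_contra hcon
      push Not at hcon
      have h1 := dich_use hov hd 1 N hN hG c hcc hh le_rfl (Nat.find hex) N (by omega) le_rfl
        (fun i _ => by
          have h2 := lvl_mono' c (Nat.le_add_right (Nat.find hex) i)
          rw [(Nat.find_spec hex).2] at h2
          exact h2)
      omega
  · push Not at hex
    refine ⟨n, le_rfl, fun i hi => lt_of_le_of_ne (lvl_le (l := l) h i x) (hex i hi), by omega⟩

open Classical in
/-- The number of the elements of the orbit at which a polynomial vanishes. -/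
lemma card_zero (c : Ctx l h d n p q p₀ q₀ x) (W : E[X]) (hW : W ≠ 0) (e : ℕ) :
    ((range n).filter (fun i => W.eval (x i ^ l ^ e) = 0)).card ≤ W.natDegree := by
  classical
  refine le_trans ?_ (Polynomial.card_roots' W)
  refine le_trans ?_ (Multiset.toFinset_card_le W.roots)
  refine card_le_card_of_injOn (fun i => x i ^ l ^ e) ?_ ?_
  · intro i hi
    rw [mem_coe, mem_filter] at hi
    simp only [mem_coe, Multiset.mem_toFinset]
    rw [mem_roots hW]
    exact hi.2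
  · intro i hi i' hi' he
    rw [mem_coe, mem_filter, mem_range] at hi hi'
    exact c.inj i hi.1 i' hi'.1 (pow_inj (l := l) e he)

lemma wr_deg (p q : E[X]) (hp : p.natDegree ≤ d) (hq : q.natDegree ≤ d) :
    (wr p q).natDegree ≤ 2 * d := by
  unfold wr
  have h1 := natDegree_derivative_le p
  have h2 := natDegree_derivative_le q
  refine (natDegree_sub_le _ _).trans (max_le ?_ ?_)
  · refine natDegree_mul_le.trans ?_
    omega
  · refine natDegree_mul_le.trans ?_
    omega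

end

end Pool.Agent.Q68.SP
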